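import Pool.Agent.helper99.PLR.Spec

set_option autoImplicit false

open scoped Classical

namespace Pool.Agent.PLR

open Finset
open Pool.Agent.helper65.HC (V IsEig IsTop lam)
open Pool.Agent.helper9.HQ (Fam Dn E N Le Eig lk)
open Pool.Agent.helper9.HX (Ef)
open Pool.Agent.helper9.HLR (cel Lc)

noncomputable section

theorem YMQ : YMQ_stmt := by
  intro d U S f
  have h1 : ∑ w ∈ S.powerset, (w.card.choose 2 : ℝ) * N (cel S w U) f =
      ∑ x ∈ U, ((x ∩ S).card.choose 2 : ℝ) * f x ^ 2 := by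
    have e1 : ∀ w ∈ S.powerset, (w.card.choose 2 : ℝ) * N (cel S w U) f =
        ∑ x ∈ U, if x ∩ S = w then (w.card.choose 2 : ℝ) * f x ^ 2 else 0 := by
      intro w _
      unfold N cel
      rw [mul_sum, sum_filter]
    rw [sum_congr rfl e1, sum_comm]
    apply sum_congr rfl
    intro x _
    rw [sum_ite_eq, if_pos (mem_powerset.2 inter_subset_right)]
  have h2 : ∑ v ∈ S.powersetCard 2, mq U f v = ∑ x ∈ U, ((x ∩ S).card.choose 2 : ℝ) * f x ^ 2 := by
    have e1 : ∀ v ∈ S.powersetCard 2, mq U f v = ∑ x ∈ U, if v ⊆ x then f x ^ 2 else 0 := by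
      intro v _
      unfold mq
      rw [sum_filter]
    rw [sum_congr rfl e1, sum_comm]
    apply sum_congr rfl
    intro x _
    rw [← sum_filter, sum_const, nsmul_eq_mul]
    have e2 : (S.powersetCard 2).filter (fun v => v ⊆ x) = (x ∩ S).powersetCard 2 := by
      ext v
      simp only [mem_filter, mem_powersetCard, subset_inter_iff]
      constructor
      · rintro ⟨⟨a, b⟩, c⟩
        exact ⟨⟨c, a⟩, b⟩
      · rintro ⟨⟨a, b⟩, c⟩
        exact ⟨⟨b, c⟩, a⟩
    rw [e2, card_powersetCard]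
  rw [h1, h2]

end

end Pool.Agent.PLR
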